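import Pool.Agent.Lib.MP_fb3619_al.PQ.Iface

/-!
# MP_fb3619_al, board PQ, module TAM (paper 4): tame types, and `T_a ∩ HD_c = 1`
-/

set_option autoImplicit false

universe u

namespace Pool.Agent.FourGp.FF.Pq

open Pool.Agent.FourGp.H47 (Odd' inv_of_sq conj_inv_pow mul_inv_self odd_conj comm_of_inv
  mul_inv_self' comm_pow comm_inv conj_comm comm_conj)
open Pool.Agent.FourGp.H99 (LF)
open Pool.Agent.FourGp.FF.Abo

/-- TAM: if no nontrivial element of `F` centralises the inverted part of `C_K(a)`, then `T_a` has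
finite index in `C_K(a)`. -/
theorem tam : TamS.{u} := by
  intro G _ K a b c h hF hP
  obtain ⟨X, hX, h1, h2⟩ := xs_ex shu h hF
  have hXT : X ≤ TA K a b := by
    intro x hx
    obtain ⟨w, s, hw, hs, e, hwb, hsb⟩ := h.dec (X := X) (hX.le.trans cz_le) h.bb hX.inv hx
    have hwF : w ∈ Fx K a b := mem_Fx.2 ⟨(mem_Cz.1 (hX.le hw)).1, (mem_Cz.1 (hX.le hw)).2, hwb⟩
    have hw1 : w = 1 := hP w hwF (h1 w hw hwF)
    have hsi : Mi K a b s := ⟨hX.le hs, hsb⟩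
    rw [e, hw1, one_mul]
    refine (mem_TA h).2 ⟨hsi, fun v hv => ?_⟩
    obtain ⟨e', he', heF', e2⟩ := h2 v s hv hsi hs
    have he1 : e' = 1 := hP e' heF' (h1 e' he' heF')
    rw [he1, one_mul] at e2
    calc s * v = s * (s⁻¹ * v * s) := by rw [e2]
      _ = v * s := by group
  intro h0
  have h3 := Subgroup.relIndex_dvd_of_le_left (Cz K a) hXT
  rw [h0] at h3
  exact hX.ind (Nat.eq_zero_of_zero_dvd h3)

/-- THC: `T_a ∩ HD_c = 1`. -/
theorem thc : ThcS.{u} := by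
  intro G _ K a b c h hF hN t ht hfi
  obtain ⟨htM, htc⟩ := (mem_TA h).1 ht
  have hFa : ∀ w ∈ Fx K a b, w ∈ Cz K a := fun w hw => mem_Cz.2 ⟨(mem_Fx.1 hw).1, (mem_Fx.1 hw).2.1⟩
  have hFc : ∀ w ∈ Fx K a b, w ∈ Cz K c := fun w hw => mem_Cz.2 ⟨(mem_Fx.1 hw).1,
    h.comm3 (mem_Fx.1 hw).2.1 (mem_Fx.1 hw).2.2⟩
  have hN' : NoLf K c b := (hN.rot h).swap
  have h' : Fr K c b a := h.rot.rot.swap'
  have hF' : (Fx K c b : Set G).Finite := by
    rw [Fr.fx_swap, h.fx_rot]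
    exact hF
  have htK : t ∈ K := (mem_Cz.1 htM.1).1
  have hbt : b * t * b = t⁻¹ := htM.2
  have hct : c * t * c = t⁻¹ := h.swap.inv_c (mem_Cz.1 htM.1).2 htM.2
  -- an involution commuting with `F` and inverting `t`
  have hzL : ∀ z : G, z * z = 1 → z * t * z = t⁻¹ → ∀ f : G, f * z = z * f →
      z * (f⁻¹ * t * f) * z = f⁻¹ * t⁻¹ * f ∧ z * (f⁻¹ * t⁻¹ * f) * z = f⁻¹ * t * f := by
    intro z hz h1 f hf
    refine ⟨?_, ?_⟩
    · rw [cj_conj hz hf, h1]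
    · rw [cj_conj hz hf, cj_inv hz, h1, inv_inv]
  have key := covN h' hN' hF' (L := {x | ∃ f ∈ Fx K a b, x = f⁻¹ * t * f ∨ x = f⁻¹ * t⁻¹ * f})
    (by
      refine ((hF.image fun f => f⁻¹ * t * f).union (hF.image fun f => f⁻¹ * t⁻¹ * f)).subset ?_
      rintro x ⟨f, hf, rfl | rfl⟩
      · exact Or.inl ⟨f, hf, rfl⟩
      · exact Or.inr ⟨f, hf, rfl⟩)
    (by
      rintro x ⟨f, hf, rfl | rfl⟩
      · exact h.cjk htK
      · exact h.cjk (K.inv_mem htK))
    (by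
      rintro g hg x ⟨f, hf, hx⟩
      obtain ⟨w, u, hw, hu, e, hwb, hub⟩ := h.dec (X := Cz K a) cz_le h.bb
        (fun u hu => h.cz_inv h.bb h.cab.symm hu) hg
      have hwF : w ∈ Fx K a b := mem_Fx.2 ⟨(mem_Cz.1 hw).1, (mem_Cz.1 hw).2, hwb⟩
      have hfw : f * w ∈ Fx K a b := (Fx K a b).mul_mem hf hwF
      -- `(f w) u (f w)⁻¹` is inverted by `b`
      have hu1 : (f * w) * u * (f * w)⁻¹ ∈ Cz K a :=
        (Cz K a).mul_mem ((Cz K a).mul_mem (hFa _ hfw) hu) ((Cz K a).inv_mem (hFa _ hfw))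
      have c1 : Commute (f * w) b := (mem_Fx.1 hfw).2.2
      have hi : b * ((f * w) * u * (f * w)⁻¹) * b = ((f * w) * u * (f * w)⁻¹)⁻¹ := by
        calc b * ((f * w) * u * (f * w)⁻¹) * b
            = (b * (f * w)) * u * ((f * w)⁻¹ * b) := by group
          _ = ((f * w) * b) * u * (b * (f * w)⁻¹) := by rw [← c1.eq, c1.inv_left.eq]
          _ = (f * w) * (b * u * b) * (f * w)⁻¹ := by group
          _ = _ := by rw [hub]; group
      have c2 : Commute t ((f * w) * u * (f * w)⁻¹) := htc _ ⟨hu1, hi⟩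
      have hcj : ∀ τ : G, Commute τ ((f * w) * u * (f * w)⁻¹) →
          g⁻¹ * (f⁻¹ * τ * f) * g = (f * w)⁻¹ * τ * (f * w) := by
        intro τ c3
        calc g⁻¹ * (f⁻¹ * τ * f) * g
            = u⁻¹ * ((f * w)⁻¹ * (τ * ((f * w) * u * (f * w)⁻¹)) * (f * w)) := by rw [e]; group
          _ = u⁻¹ * ((f * w)⁻¹ * (((f * w) * u * (f * w)⁻¹) * τ) * (f * w)) := by rw [c3.eq]
          _ = _ := by group
      refine ⟨f * w, hfw, ?_⟩
      rcases hx with rfl | rfl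
      · exact Or.inl (hcj t c2)
      · exact Or.inr (hcj t⁻¹ c2.inv_left))
    (by
      rintro x ⟨f, hf, hx⟩
      have h1 := hzL c h.cc hct f (h.comm3 (mem_Fx.1 hf).2.1 (mem_Fx.1 hf).2.2)
      refine ⟨f, hf, ?_⟩
      rcases hx with rfl | rfl
      · exact Or.inr h1.1
      · exact Or.inl h1.2)
    (by
      rintro x ⟨f, hf, hx⟩
      have h1 := hzL b h.bb hbt f (mem_Fx.1 hf).2.2
      refine ⟨f, hf, ?_⟩
      rcases hx with rfl | rfl
      · exact Or.inr h1.1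
      · exact Or.inl h1.2)
    (by
      rintro x ⟨f, hf, hx⟩
      have hnor : ∀ d ∈ Cz K c, f * d * f⁻¹ ∈ Cz K c := by
        intro d hd
        exact (Cz K c).mul_mem ((Cz K c).mul_mem (hFc f hf) hd) ((Cz K c).inv_mem (hFc f hf))
      have hti : fi (Cz K c) t⁻¹ := (HD (Cz K c)).inv_mem hfi
      rcases hx with rfl | rfl
      · exact fi_conj hnor hfi
      · exact fi_conj hnor hti)
  exact key t ⟨1, (Fx K a b).one_mem, Or.inl (by group)⟩

end Pool.Agent.FourGp.FF.Pq
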