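import Pool.Agent.Lib.MP_fb3619_al.PQ.Iface

/-!
# MP_fb3619_al, board PQ, row ISO (paper 8): isotropic elements outside a subgroup of infinite index
-/

set_option autoImplicit false

universe u

namespace Pool.Agent.FourGp.FF.Pq

open Pool.Agent.FourGp.H47 (Odd' inv_of_sq conj_inv_pow mul_inv_self odd_conj comm_of_inv
  mul_inv_self' comm_pow comm_inv conj_comm comm_conj)
open Pool.Agent.FourGp.H99 (LF)
open Pool.Agent.FourGp.FF.Abo

namespace IsoR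

variable {G : Type u} [Group G] {K : Subgroup G} {a b c : G}

/-- Conjugates of inverted elements under `F`. -/
theorem mi_conj {g x : G} (hg : g ∈ Fx K a b) (hx : Mi K a b x) : Mi K a b (g⁻¹ * x * g) := by
  obtain ⟨hgK, hga, hgb⟩ := mem_Fx.1 hg
  have hgz : g ∈ Cz K a := mem_Cz.2 ⟨hgK, hga⟩
  refine ⟨(Cz K a).mul_mem ((Cz K a).mul_mem ((Cz K a).inv_mem hgz) hx.1) hgz, ?_⟩
  have c1 : Commute g b := hgb
  have c2 : Commute g⁻¹ b := c1.inv_left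
  calc b * (g⁻¹ * x * g) * b = (b * g⁻¹) * x * (g * b) := by group
    _ = (g⁻¹ * b) * x * (b * g) := by rw [c2.eq, c1.eq]
    _ = g⁻¹ * (b * x * b) * g := by group
    _ = (g⁻¹ * x * g)⁻¹ := by rw [hx.2]; group

theorem mi_conj' {g x : G} (hg : g ∈ Fx K a b) (hx : Mi K a b x) : Mi K a b (g * x * g⁻¹) := by
  have := mi_conj ((Fx K a b).inv_mem hg) hx
  rwa [inv_inv] at this

theorem mi_mul {x y : G} (hbb : b * b = 1) (hx : Mi K a b x) (hy : Mi K a b y)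
    (hc : x * y = y * x) : Mi K a b (x * y) := by
  refine ⟨(Cz K a).mul_mem hx.1 hy.1, ?_⟩
  rw [cj_mul hbb, hx.2, hy.2, hc]
  group

/-- The commutator of two commuting pairs. -/
theorem kap_mul {x y p q : G} (h1 : Commute x p) (h2 : Commute x q) (h3 : Commute y p)
    (h4 : Commute y q) :
    (x * p)⁻¹ * (y * q) * (x * p) * (y * q)⁻¹ = (x⁻¹ * y * x * y⁻¹) * (p⁻¹ * q * p * q⁻¹) := by
  have e1 : p⁻¹ * (x⁻¹ * y) = (x⁻¹ * y) * p⁻¹ := ((h1.inv_left.mul_left h3).inv_right.eq).symm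
  have e2 : (p⁻¹ * q) * x = x * (p⁻¹ * q) := ((h1.inv_right.mul_right h2).eq).symm
  have e3 : (p⁻¹ * q * p * q⁻¹) * y⁻¹ = y⁻¹ * (p⁻¹ * q * p * q⁻¹) :=
    ((((h3.inv_right.mul_right h4).mul_right h3).mul_right h4.inv_right).inv_left.eq).symm
  calc (x * p)⁻¹ * (y * q) * (x * p) * (y * q)⁻¹
      = (p⁻¹ * (x⁻¹ * y)) * q * x * p * q⁻¹ * y⁻¹ := by group
    _ = (x⁻¹ * y) * ((p⁻¹ * q) * x) * p * q⁻¹ * y⁻¹ := by rw [e1]; group
    _ = (x⁻¹ * y) * x * ((p⁻¹ * q * p * q⁻¹) * y⁻¹) := by rw [e2]; group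
    _ = (x⁻¹ * y * x * y⁻¹) * (p⁻¹ * q * p * q⁻¹) := by rw [e3]; group

/-- The selection step. -/
theorem sel (h : Fr K a b c) (hF : (Fx K a b : Set G).Finite) {g : G} (hg : g ∈ Fx K a b)
    {X : Subgroup G} (hX : XS K a b X) {Y : Subgroup G} (hY : Y.relIndex (Cz K a) = 0)
    (s : Finset G) (hs : ∀ x ∈ s, x ∈ X ∧ Mi K a b x) :
    ∃ y, (y ∈ X ∧ Mi K a b y) ∧ ∀ x ∈ s, Commute y x ∧ Commute y (g⁻¹ * x * g) ∧
      Commute y (g * x * g⁻¹) ∧ x⁻¹ * y ∉ Y := by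
  classical
  set S : Set G := {z | z ∈ s ∨ (∃ x ∈ s, z = g⁻¹ * x * g) ∨ ∃ x ∈ s, z = g * x * g⁻¹} with hSdef
  have hSf : S.Finite := by
    have h1 : S = (s : Set G) ∪ ((fun x => g⁻¹ * x * g) '' (s : Set G) ∪
        (fun x => g * x * g⁻¹) '' (s : Set G)) := by
      ext z
      simp only [hSdef, Set.mem_ofPred_eq, Set.mem_union, Finset.mem_coe, Set.mem_image, eq_comm]
    rw [h1]
    exact s.finite_toSet.union ((s.finite_toSet.image _).union (s.finite_toSet.image _))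
  have hSi : ∀ z ∈ S, Mi K a b z := by
    rintro z (hz | ⟨x, hx, rfl⟩ | ⟨x, hx, rfl⟩)
    · exact (hs z hz).2
    · exact mi_conj hg (hs x hx).2
    · exact mi_conj' hg (hs x hx).2
  have hX' := xs_cent shu h hF hX S hSf hSi
  set X' := X ⊓ Subgroup.centralizer {x | ∃ s ∈ S, ∃ g ∈ Cz K a, x = g⁻¹ * s * g} with hX'def
  have hcom : ∀ y ∈ X', ∀ z ∈ S, Commute y z := by
    intro y hy z hz
    exact (Subgroup.mem_centralizer_iff.1 hy.2 z
      ⟨z, hz, 1, (Cz K a).one_mem, by group⟩).symm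
  by_contra hno
  push Not at hno
  have hcov : ∀ y ∈ X', Mi K a b y → ∃ x ∈ s, x⁻¹ * y ∈ Y := by
    intro y hy hyi
    obtain ⟨x, hx, h1⟩ := hno y ⟨hy.1, hyi⟩
    refine ⟨x, hx, h1 (hcom y hy x (Or.inl hx)) (hcom y hy _ (Or.inr (Or.inl ⟨x, hx, rfl⟩)))
      (hcom y hy _ (Or.inr (Or.inr ⟨x, hx, rfl⟩)))⟩
  -- representatives
  have h2 : ∀ x : G, ∃ w : G, w ∈ X' ∧ ((∃ w', w' ∈ X' ∧ x⁻¹ * w' ∈ Y) → x⁻¹ * w ∈ Y) := by
    intro x
    by_cases hx : ∃ w', w' ∈ X' ∧ x⁻¹ * w' ∈ Y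
    · obtain ⟨w', h3, h4⟩ := hx
      exact ⟨w', h3, fun _ => h4⟩
    · exact ⟨1, X'.one_mem, fun h => absurd h hx⟩
  choose w hw1 hw2 using h2
  have hQf : ((X' ⊓ Fx K a b : Subgroup G) : Set G).Finite := hF.subset fun x hx => hx.2
  obtain ⟨i, -, hi⟩ := neum (D := X') (((X' ⊓ Fx K a b : Subgroup G) : Set G) ×ˢ (s : Set G))
    (hQf.prod s.finite_toSet) (fun i : G × G => i.1 * w i.2)
    (by
      rintro ⟨e, x⟩ ⟨he, -⟩
      exact X'.mul_mem he.1 (hw1 x)) (fun _ => Y) (by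
      intro d hd
      obtain ⟨e, y, he, hy, hey, h3, h4⟩ := h.dec (X := X') (hX'.le.trans cz_le) h.bb hX'.inv hd
      have heF : e ∈ Fx K a b := mem_Fx.2 ⟨(mem_Cz.1 (hX'.le he)).1, (mem_Cz.1 (hX'.le he)).2, h3⟩
      obtain ⟨x, hx, h5⟩ := hcov y hy ⟨hX'.le hy, h4⟩
      refine ⟨(e, x), ⟨⟨he, heF⟩, hx⟩, ?_⟩
      have h6 := hw2 x ⟨y, hy, h5⟩
      have e1 : (e * w x)⁻¹ * d = (x⁻¹ * w x)⁻¹ * (x⁻¹ * y) := by rw [hey]; group
      show (e * w x)⁻¹ * d ∈ Y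
      rw [e1]
      exact Y.mul_mem (Y.inv_mem h6) h5)
  exact Subgroup.relIndex_ne_zero_trans hi hX'.ind hY

end IsoR

open IsoR in
/-- **Row ISO.** -/
theorem iso : IsoS.{u} := by
  classical
  intro G _ K a b c h hF g hg X hX _ hcomm _ Y _ hY
  obtain ⟨f, hf, hfr⟩ := exists_seq_of_forall_finset_exists
    (fun y : G => y ∈ X ∧ Mi K a b y)
    (fun x y => Commute y x ∧ Commute y (g⁻¹ * x * g) ∧ Commute y (g * x * g⁻¹) ∧ x⁻¹ * y ∉ Y)
    (fun s hs => sel h hF hg hX hY s hs)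
  -- the commutators
  have hQf : Finite (X ⊓ Fx K a b : Subgroup G) := by
    refine (hF.subset ?_).to_subtype
    intro x hx
    exact hx.2
  have hkap : ∀ y : G, y ∈ X → Mi K a b y →
      y⁻¹ * (g⁻¹ * y * g) * y * (g⁻¹ * y * g)⁻¹ ∈ X ⊓ Fx K a b := by
    intro y hy hyi
    obtain ⟨e, he, heF, h1⟩ := hcomm (g⁻¹ * y * g) y (mi_conj hg hyi) hyi hy
    rw [h1]
    have e1 : e * (g⁻¹ * y * g) * (g⁻¹ * y * g)⁻¹ = e := by group
    rw [e1]
    exact ⟨he, heF⟩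
  let κ : ℕ → (X ⊓ Fx K a b : Subgroup G) := fun n =>
    ⟨(f n)⁻¹ * (g⁻¹ * f n * g) * f n * (g⁻¹ * f n * g)⁻¹, hkap _ (hf n).1 (hf n).2⟩
  obtain ⟨κ0, hκ0⟩ := Finite.exists_infinite_fiber κ
  have hinf : (κ ⁻¹' {κ0}).Infinite := Set.infinite_coe_iff.1 hκ0
  obtain ⟨φ, hφ⟩ : ∃ φ : ℕ ↪o ℕ, ∀ n, κ (φ n) = κ0 := by
    refine ⟨Nat.orderEmbeddingOfSet (κ ⁻¹' {κ0}), fun n => ?_⟩
    have := Set.mem_range_self (f := Nat.orderEmbeddingOfSet (κ ⁻¹' {κ0})) n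
    rw [Nat.orderEmbeddingOfSet_range] at this
    exact this
  set v : ℕ → G := fun n => f (φ n) with hv
  have hvX : ∀ n, v n ∈ X := fun n => (hf _).1
  have hvi : ∀ n, Mi K a b (v n) := fun n => (hf _).2
  have hvr : ∀ m n, m < n → Commute (v n) (v m) ∧ Commute (v n) (g⁻¹ * v m * g) ∧
      Commute (g⁻¹ * v n * g) (v m) ∧ (v m)⁻¹ * v n ∉ Y := by
    intro m n hmn
    obtain ⟨h1, h2, h3, h4⟩ := hfr (φ m) (φ n) (φ.strictMono hmn)
    refine ⟨h1, h2, ?_, h4⟩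
    have e : g⁻¹ * v n * g * v m = g⁻¹ * (v n * (g * v m * g⁻¹)) * g := by group
    have h3' : v n * (g * v m * g⁻¹) = (g * v m * g⁻¹) * v n := h3
    show g⁻¹ * v n * g * v m = v m * (g⁻¹ * v n * g)
    rw [e, h3']
    group
  have hvκ : ∀ n, (v n)⁻¹ * (g⁻¹ * v n * g) * v n * (g⁻¹ * v n * g)⁻¹ = κ0 := by
    intro n
    have := congrArg Subtype.val (hφ n)
    exact this
  -- partial products
  let A : ℕ → G := fun n => Nat.rec 1 (fun k x => x * v k) n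
  have hA0 : A 0 = 1 := rfl
  have hAs : ∀ n, A (n + 1) = A n * v n := fun n => rfl
  have hAc : ∀ n m, n ≤ m → Commute (A n) (v m) ∧ Commute (A n) (g⁻¹ * v m * g) ∧
      Commute (g⁻¹ * A n * g) (v m) ∧ Commute (g⁻¹ * A n * g) (g⁻¹ * v m * g) := by
    intro n
    induction n with
    | zero =>
      intro m _
      have e : g⁻¹ * A 0 * g = 1 := by rw [hA0]; group
      rw [e, hA0]
      exact ⟨Commute.one_left _, Commute.one_left _, Commute.one_left _, Commute.one_left _⟩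
    | succ n ih =>
      intro m hm
      obtain ⟨h1, h2, h3, h4⟩ := ih m (by omega)
      obtain ⟨k1, k2, k3, -⟩ := hvr n m (by omega)
      have e : g⁻¹ * A (n + 1) * g = (g⁻¹ * A n * g) * (g⁻¹ * v n * g) := by rw [hAs]; group
      have k4 : Commute (g⁻¹ * v n * g) (g⁻¹ * v m * g) := by
        have k1' : v m * v n = v n * v m := k1.eq
        show (g⁻¹ * v n * g) * (g⁻¹ * v m * g) = (g⁻¹ * v m * g) * (g⁻¹ * v n * g)
        calc (g⁻¹ * v n * g) * (g⁻¹ * v m * g) = g⁻¹ * (v n * v m) * g := by group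
          _ = g⁻¹ * (v m * v n) * g := by rw [k1']
          _ = _ := by group
      rw [e, hAs]
      exact ⟨h1.mul_left k1.symm, h2.mul_left k3.symm, h3.mul_left k2.symm, h4.mul_left k4⟩
  have hAX : ∀ n, A n ∈ X ∧ Mi K a b (A n) := by
    intro n
    induction n with
    | zero =>
      refine ⟨X.one_mem, (Cz K a).one_mem, ?_⟩
      rw [hA0, mul_one, h.bb, inv_one]
    | succ n ih =>
      rw [hAs]
      exact ⟨X.mul_mem ih.1 (hvX n), mi_mul h.bb ih.2 (hvi n) (hAc n n le_rfl).1⟩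
  have hAκ : ∀ n, (A n)⁻¹ * (g⁻¹ * A n * g) * A n * (g⁻¹ * A n * g)⁻¹ = (κ0 : G) ^ n := by
    intro n
    induction n with
    | zero => rw [hA0, pow_zero]; group
    | succ n ih =>
      obtain ⟨h1, h2, h3, h4⟩ := hAc n n le_rfl
      have e : g⁻¹ * A (n + 1) * g = (g⁻¹ * A n * g) * (g⁻¹ * v n * g) := by rw [hAs]; group
      rw [e, hAs, kap_mul h1 h2 h3 h4, ih, hvκ, pow_succ]
  -- the two candidates
  obtain ⟨M, hM⟩ : ∃ M, Nat.card (X ⊓ Fx K a b : Subgroup G) = M + 1 :=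
    Nat.exists_eq_succ_of_ne_zero Nat.card_pos.ne'
  have hpow : (κ0 : G) ^ (M + 1) = 1 := by
    have := pow_card_eq_one' (x := κ0)
    rw [hM] at this
    have h2 := congrArg Subtype.val this
    simpa using h2
  have key : ∀ m, M ≤ m → A M * v m ∉ Y → ∃ u ∈ X, Mi K a b u ∧
      u * (g⁻¹ * u * g) = (g⁻¹ * u * g) * u ∧ u ∉ Y := by
    intro m hm hmY
    obtain ⟨h1, h2, h3, h4⟩ := hAc M m hm
    refine ⟨A M * v m, X.mul_mem (hAX M).1 (hvX m), mi_mul h.bb (hAX M).2 (hvi m) h1, ?_, hmY⟩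
    have e : g⁻¹ * (A M * v m) * g = (g⁻¹ * A M * g) * (g⁻¹ * v m * g) := by group
    rw [e]
    have h5 := kap_mul h1 h2 h3 h4
    rw [hAκ, hvκ, ← pow_succ, hpow] at h5
    set x := A M * v m
    set y := (g⁻¹ * A M * g) * (g⁻¹ * v m * g)
    calc x * y = x * (x⁻¹ * y * x * y⁻¹) * y := by rw [h5, mul_one]
      _ = y * x := by group
  by_cases hY1 : A M * v M ∈ Y
  · refine key (M + 1) (by omega) fun hY2 => ?_
    apply (hvr M (M + 1) (by omega)).2.2.2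
    have := Y.mul_mem (Y.inv_mem hY1) hY2
    have e : (A M * v M)⁻¹ * (A M * v (M + 1)) = (v M)⁻¹ * v (M + 1) := by group
    rwa [e] at this
  · exact key M le_rfl hY1

end Pool.Agent.FourGp.FF.Pq
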