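import Pool.Agent.Lib.MP_fb3619_al.H4.Abf

/-!
# MP_fb3619_al, board PQ: `|C_K(V)| = p q`. Statements of the modules.

Paper: finding COMPLETE PAPER, THEOREM TWO, of helper28 (4 Dec).
-/

set_option autoImplicit false

universe u

namespace Pool.Agent.FourGp.FF.Pq

open Pool.Agent.FourGp.H47 (Odd' inv_of_sq conj_inv_pow mul_inv_self odd_conj comm_of_inv
  mul_inv_self' comm_pow comm_inv conj_comm comm_conj)
open Pool.Agent.FourGp.H99 (LF)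
open Pool.Agent.FourGp.FF.Abo

/-- `T_a`: the elements of `C_K(a)` inverted by `b` which commute with all elements of `C_K(a)`
inverted by `b` (equivalently: which are inverted by every involution commuting with `a`). -/
def TA {G : Type u} [Group G] (K : Subgroup G) (a b : G) : Subgroup G where
  carrier := {x | (x ∈ Cz K a ∧ b * x * b = x⁻¹ ∧ b * b = 1 ∨ x = 1) ∧
    ∀ w, Mi K a b w → x * w = w * x}
  mul_mem' := by
    rintro x y ⟨hx, hx'⟩ ⟨hy, hy'⟩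
    refine ⟨?_, fun w hw => ?_⟩
    · rcases hx with ⟨hx1, hx2, hb⟩ | rfl
      · rcases hy with ⟨hy1, hy2, -⟩ | rfl
        · left
          refine ⟨(Cz K a).mul_mem hx1 hy1, ?_, hb⟩
          rw [cj_mul hb, hx2, hy2, ← mul_inv_rev, hx' y ⟨hy1, hy2⟩]
        · left
          rw [mul_one]
          exact ⟨hx1, hx2, hb⟩
      · rw [one_mul]
        exact hy
    · rw [mul_assoc, hy' w hw, ← mul_assoc, hx' w hw, mul_assoc]
  one_mem' := ⟨Or.inr rfl, fun w _ => by rw [one_mul, mul_one]⟩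
  inv_mem' := by
    rintro x ⟨hx, hx'⟩
    refine ⟨?_, fun w hw => ?_⟩
    · rcases hx with ⟨hx1, hx2, hb⟩ | rfl
      · left
        refine ⟨(Cz K a).inv_mem hx1, ?_, hb⟩
        rw [cj_inv hb, hx2]
      · right
        exact inv_one
    · have c1 : Commute x w := hx' w hw
      exact c1.inv_left

variable {G : Type u} [Group G] {K : Subgroup G} {a b c : G}

theorem mem_TA (h : Fr K a b c) {x : G} :
    x ∈ TA K a b ↔ Mi K a b x ∧ ∀ w, Mi K a b w → x * w = w * x := by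
  constructor
  · rintro ⟨hx, hx'⟩
    refine ⟨?_, hx'⟩
    rcases hx with ⟨hx1, hx2, -⟩ | rfl
    · exact ⟨hx1, hx2⟩
    · exact ⟨(Cz K a).one_mem, by rw [mul_one, h.bb, inv_one]⟩
  · rintro ⟨⟨hx1, hx2⟩, hx'⟩
    exact ⟨Or.inl ⟨hx1, hx2, h.bb⟩, hx'⟩

/-- LMA (paper 1): the M-argument. -/
def LmaS : Prop := ∀ (G : Type u) [Group G] (K : Subgroup G) (a b c : G), Fr K a b c →
  ∀ u g t t' γ γ' w w' : G, Mi K a b u → g ∈ Fx K a b →
  u * (g⁻¹ * u * g) = (g⁻¹ * u * g) * u →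
  Mi K c b t → Mi K c b t' → t * g = g * t → t' * g = g * t' → t * t' = t' * t →
  Mi K c b γ → Mi K c b γ' → γ * γ' = γ' * γ → (γ⁻¹ * γ') * g = g * (γ⁻¹ * γ') →
  w = t * (u⁻¹ * γ * u) * t → w' = t' * (u⁻¹ * γ' * u) * t' → w ∈ Cz K b → w' ∈ Cz K b →
  (w⁻¹ * w') * g = g * (w⁻¹ * w') →
  (t⁻¹ * t') * ((g⁻¹ * w * g) * w⁻¹) = ((g⁻¹ * w * g) * w⁻¹) * (t⁻¹ * t')

/-- LMB (paper 2). -/
def LmbS : Prop := ∀ (G : Type u) [Group G] (K : Subgroup G) (a b c : G), Fr K a b c →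
  ∀ u g t γ w : G, Mi K a b u → g ∈ Fx K a b →
  u * (g⁻¹ * u * g) = (g⁻¹ * u * g) * u →
  Mi K c b t → t * g = g * t → Mi K c b γ → w = t * (u⁻¹ * γ * u) * t → Mi K b a w →
  w * g = g * w → t * (u⁻¹ * (g⁻¹ * u * g)) = (u⁻¹ * (g⁻¹ * u * g)) * t

/-- LMC (paper 3). -/
def LmcS : Prop := ∀ (G : Type u) [Group G] (K : Subgroup G) (a b c : G), Fr K a b c →
  ∀ u t : G, Mi K a b u → Mi K c b t →
  ∃ w γ : G, Mi K b a w ∧ Mi K c b γ ∧ w = t * (u⁻¹ * γ * u) * t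

/-- TAM (paper 4): the type `a` is tame if no element `≠ 1` of `F` centralises the inverted part of
`C_K(a)`. -/
def TamS : Prop := ∀ (G : Type u) [Group G] (K : Subgroup G) (a b c : G), Fr K a b c →
  (Fx K a b : Set G).Finite →
  (∀ f ∈ Fx K a b, (∀ u, Mi K a b u → f * u = u * f) → f = 1) →
  (TA K a b).relIndex (Cz K a) ≠ 0

/-- THC (paper 4): `T_a ∩ HD_c = 1`. -/
def ThcS : Prop := ∀ (G : Type u) [Group G] (K : Subgroup G) (a b c : G), Fr K a b c →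
  (Fx K a b : Set G).Finite → NoLf K a b → ∀ t ∈ TA K a b, fi (Cz K c) t → t = 1

/-- YTH (paper 5): Theorem Y. -/
def YthS : Prop := ∀ (G : Type u) [Group G] (K : Subgroup G) (a b c : G), Fr K a b c →
  (TA K b a).relIndex (Cz K b) ≠ 0 → (TA K c b).relIndex (Cz K c) ≠ 0 →
  ∀ g ∈ Fx K a b, fi (Cz K b) g → fi (Cz K c) g →
  ∀ u, Mi K a b u → u * (g⁻¹ * u * g) = (g⁻¹ * u * g) * u →
  fi (Cz K c) (u⁻¹ * (g⁻¹ * u * g)) ∨
    ∃ w, Mi K b a w ∧ (g⁻¹ * w * g) * w⁻¹ ≠ 1 ∧ fi (Cz K c) ((g⁻¹ * w * g) * w⁻¹)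

/-- FIX (paper 6): facts on involutory automorphisms of finite groups of odd order: invariant Sylow
subgroups exist, contain the invariant `r`-subgroups, and are conjugate under the fixed points. -/
def FixS : Prop := ∀ (X : Type u) [Group X] [Finite X] (σ : X →* X), (∀ x, σ (σ x) = x) →
  Odd (Nat.card X) → ∀ (r : ℕ) [Fact r.Prime],
  (∀ R : Subgroup X, IsPGroup r R → (∀ x ∈ R, σ x ∈ R) →
    ∃ S : Sylow r X, R ≤ S ∧ ∀ x ∈ (S : Subgroup X), σ x ∈ (S : Subgroup X)) ∧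
  (∀ S S' : Sylow r X, (∀ x ∈ (S : Subgroup X), σ x ∈ (S : Subgroup X)) →
    (∀ x ∈ (S' : Subgroup X), σ x ∈ (S' : Subgroup X)) →
    ∃ e : X, σ e = e ∧ ∀ x, x ∈ (S' : Subgroup X) ↔ e * x * e⁻¹ ∈ (S : Subgroup X)) ∧
  Nat.card X = Nat.card {x : X // σ x = x} * Nat.card {x : X // σ x = x⁻¹}

/-- CPC (paper 6): the counting step. Every `r ≠ q` has an invariant Sylow subgroup normalised by
`g`; then they are normal. -/
def CpcS : Prop := ∀ (X : Type u) [Group X] [Finite X] (σ : X →* X), (∀ x, σ (σ x) = x) →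
  Odd (Nat.card X) → ∀ (g : X) (q : ℕ), q.Prime → orderOf g = q →
  (∀ x, σ x = x ↔ x ∈ Subgroup.zpowers g) →
  (∀ (r : ℕ) [Fact r.Prime], r ≠ q → ∀ S : Sylow r X,
    (∀ x ∈ (S : Subgroup X), σ x ∈ (S : Subgroup X)) →
    ∀ x ∈ (S : Subgroup X), g * x * g⁻¹ ∈ (S : Subgroup X)) →
  ∀ (r : ℕ) [Fact r.Prime], r ≠ q → ∀ S : Sylow r X,
    (∀ x ∈ (S : Subgroup X), σ x ∈ (S : Subgroup X)) → (S : Subgroup X).Normal

/-- SOL (paper 6): an abelian characteristic subgroup. -/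
def SolS : Prop := ∀ (X : Type u) [Group X] [Finite X] (σ : X →* X), (∀ x, σ (σ x) = x) →
  Odd (Nat.card X) → ∀ (g : X) (q : ℕ), q.Prime → orderOf g = q →
  (∀ x, σ x = x ↔ x ∈ Subgroup.zpowers g) →
  ∃ M : Subgroup X, M.Characteristic ∧ M ≠ ⊥ ∧ ∀ x ∈ M, ∀ y ∈ M, x * y = y * x

/-- FGL (paper 6): the finite group lemma. -/
def FglS : Prop := ∀ (X : Type u) [Group X] [Finite X] (σ : X →* X), (∀ x, σ (σ x) = x) →
  Odd (Nat.card X) → ∀ (g : X) (q : ℕ), q.Prime → orderOf g = q →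
  (∀ x, σ x = x ↔ x ∈ Subgroup.zpowers g) →
  (∀ N : Subgroup X, N.Normal → (∀ x ∈ N, σ x ∈ N) → N ≠ ⊥ → g ∈ N) →
  ∃ M : Subgroup X, M.Normal ∧ (∀ x ∈ M, σ x ∈ M) ∧ (∀ x ∈ M, ∀ y ∈ M, x * y = y * x) ∧
    (∀ x ∈ M, x ^ q = 1) ∧ g ∈ M ∧ (∀ x y : X, x⁻¹ * y⁻¹ * x * y ∈ M) ∧
    ∀ w : X, σ w = w⁻¹ → w * g ≠ g * w → (∀ m ∈ M, w * m = m * w → m = 1) ∧
      ∀ L : Subgroup X, g ∈ L → w⁻¹ * g * w ∈ L → w * g * w⁻¹ ∈ L → M ≤ L

/-- XBC (paper 7): `w^g w⁻¹ ∈ HD_c` only if it is `1`. -/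
def XbcS : Prop := ∀ (G : Type u) [Group G] (K : Subgroup G) (a b c : G), Fr K a b c →
  (Fx K a b : Set G).Finite → NoLf K a b → ¬ LF K → (TA K b a).relIndex (Cz K b) ≠ 0 →
  ∀ (g : G) (q : ℕ), q.Prime → orderOf g = q → g ∈ Fx K a b → fi (Cz K b) g → fi (Cz K c) g →
  (∀ f ∈ Fx K a b, fi (Cz K b) f → f ∈ Subgroup.zpowers g) →
  ∀ w, Mi K b a w → fi (Cz K c) ((g⁻¹ * w * g) * w⁻¹) → (g⁻¹ * w * g) * w⁻¹ = 1

/-- ISO (paper 8): isotropic elements outside a subgroup of infinite index. -/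
def IsoS : Prop := ∀ (G : Type u) [Group G] (K : Subgroup G) (a b c : G), Fr K a b c →
  (Fx K a b : Set G).Finite → ∀ g ∈ Fx K a b, ∀ X : Subgroup G, XS K a b X →
  (∀ e ∈ X, e ∈ Fx K a b → ∀ u, Mi K a b u → e * u = u * e) →
  (∀ w u, Mi K a b w → Mi K a b u → u ∈ X → ∃ e ∈ X, e ∈ Fx K a b ∧ u⁻¹ * w * u = e * w) →
  (∀ e ∈ X, e ∈ Fx K a b → ∀ f ∈ X, f ∈ Fx K a b → e * f = f * e) →
  ∀ Y : Subgroup G, Y ≤ X → Y.relIndex (Cz K a) = 0 →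
  ∃ u ∈ X, Mi K a b u ∧ u * (g⁻¹ * u * g) = (g⁻¹ * u * g) * u ∧ u ∉ Y

/-- OMG (paper 9): the end of the argument. -/
def OmgS : Prop := ∀ (G : Type u) [Group G] (K : Subgroup G) (a b c : G), Fr K a b c →
  (Fx K a b : Set G).Finite → NoLf K a b →
  ∀ (g : G) (q : ℕ), q.Prime → orderOf g = q → g ∈ Fx K a b → ∀ X : Subgroup G, XS K a b X →
  (∀ e ∈ X, e ∈ Fx K a b → ∀ u, Mi K a b u → e * u = u * e) →
  (∀ w u, Mi K a b w → Mi K a b u → u ∈ X → ∃ e ∈ X, e ∈ Fx K a b ∧ u⁻¹ * w * u = e * w) →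
  (∀ e ∈ X, e ∈ Fx K a b → ∀ f ∈ Fx K a b, e * f = f * e) →
  (∀ e ∈ X, e ∈ Fx K a b → e ^ q = 1 → e = 1) →
  (∀ e ∈ X, e ∈ Fx K a b → fi (Cz K c) e → e = 1) →
  (∀ u ∈ X, Mi K a b u → u * (g⁻¹ * u * g) = (g⁻¹ * u * g) * u →
    fi (Cz K c) (u⁻¹ * (g⁻¹ * u * g))) →
  fi (Cz K a) g

/-- CFM (paper 10): the main configuration is impossible. -/
def CfmS : Prop := ∀ (G : Type u) [Group G] (K : Subgroup G) (a b c : G), Fr K a b c →
  (Fx K a b : Set G).Finite → NoLf K a b → ¬ LF K →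
  ∀ (g e : G) (p q : ℕ), p.Prime → q.Prime → p ≠ q → orderOf g = q → orderOf e = p →
  g ∈ Fx K a b → e ∈ Fx K a b → g * e = e * g →
  (∀ f ∈ Fx K a b, ∃ i j : ℕ, f = g ^ i * e ^ j) →
  (∀ f ∈ Fx K a b, fi (Cz K a) f ↔ f ∈ Subgroup.zpowers e) →
  (∀ f ∈ Fx K a b, fi (Cz K b) f ↔ f ∈ Subgroup.zpowers g) →
  fi (Cz K c) g → False

/-- CFG (paper 10): the configurations. -/
def CfgS : Prop := ∀ (G : Type u) [Group G] (K : Subgroup G) (a b c : G), Fr K a b c →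
  (Fx K a b : Set G).Finite → NoLf K a b → ∀ p q : ℕ, p.Prime → q.Prime → p ≠ q →
  Nat.card (Fx K a b) = p * q → LF K

end Pool.Agent.FourGp.FF.Pq
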